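import Pool.Agent.Helper92.TGX.GoalsC3

/-!
# Project TGX: FIXG (an element fixed by all embeddings is in the base field)
-/

set_option autoImplicit false

open Polynomial

namespace Pool.Agent.Helper45.TGX.FIXG

open Pool.Agent.Helper92.TGX

/-- `CMPF` for two ring homomorphisms of `K` -/
theorem cm (hC : CMPF) (K A B : Type) [Field K] [Field A] [Field B] (j1 : K →+* A) (j2 : K →+* B) :
    ∃ (N : Type) (_ : Field N), IsAlgClosed N ∧ ∃ (i1 : A →+* N) (i2 : B →+* N),
      ∀ x : K, i1 (j1 x) = i2 (j2 x) := by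
  let _ := j1.toAlgebra
  let _ := j2.toAlgebra
  obtain ⟨N, fN, aN, hN, ⟨i1⟩, ⟨i2⟩⟩ := hC K A B
  exact ⟨N, fN, hN, i1.toRingHom, i2.toRingHom, fun x => (i1.commutes x).trans (i2.commutes x).symm⟩

/-- two embeddings of `K` in `M` over `F` which differ at `k` give two embeddings of `M` which differ at `j1 k` -/
theorem core (hC : CMPF) (F M K : Type) [Field F] [Field M] [Field K] [Algebra F M] [Algebra F K]
    (j1 j2 : K →ₐ[F] M) (k : K) (hne : j2 k ≠ j1 k)
    (h : ∀ (N : Type) [Field N] [IsAlgClosed N] [Algebra F N] (τ τ' : M →ₐ[F] N), τ (j1 k) = τ' (j1 k)) :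
    False := by
  obtain ⟨N, fN, hN, i1, i2, hi⟩ := cm hC K M M j1.toRingHom j2.toRingHom
  let _ : Algebra F N := (i1.comp (algebraMap F M)).toAlgebra
  let τ1 : M →ₐ[F] N := { i1 with commutes' := fun r => rfl }
  let τ2 : M →ₐ[F] N := { i2 with
    commutes' := fun r => by
      show i2 (algebraMap F M r) = i1 (algebraMap F M r)
      have h6 := hi (algebraMap F K r)
      have h7 : j1.toRingHom (algebraMap F K r) = algebraMap F M r := j1.commutes r
      have h8 : j2.toRingHom (algebraMap F K r) = algebraMap F M r := j2.commutes r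
      rw [h7, h8] at h6
      exact h6.symm }
  have h3 : i1 (j1 k) = i2 (j1 k) := h N τ1 τ2
  have h4 : i1 (j1 k) = i2 (j2 k) := hi k
  exact hne (i2.injective (h4.symm.trans h3))

theorem t (hC : CMPF) : FIXG := by
  intro F M _ _ _ _ _ z h
  by_contra hz
  by_cases hi : IsIntegral F z
  · have hirr := minpoly.irreducible hi
    have : Fact (Irreducible (minpoly F z)) := ⟨hirr⟩
    have hsep : (minpoly F z).Separable := hirr.separable
    have hdeg : 2 ≤ (minpoly F z).natDegree := by
      by_contra hlt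
      have h0 : (minpoly F z).natDegree ≠ 0 := (minpoly.natDegree_pos hi).ne'
      have h1 : (minpoly F z).natDegree = 1 := by omega
      exact hz ((minpoly.natDegree_eq_one_iff).mp h1)
    have hcard : Fintype.card ((minpoly F z).rootSet M) = (minpoly F z).natDegree :=
      card_rootSet_eq_natDegree hsep (IsAlgClosed.splits _)
    have hzr : z ∈ (minpoly F z).rootSet M := by
      rw [mem_rootSet]
      exact ⟨hirr.ne_zero, minpoly.aeval F z⟩
    have hone : 1 < Fintype.card ((minpoly F z).rootSet M) := by omega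
    obtain ⟨⟨z', hz'⟩, hne⟩ := Fintype.exists_ne_of_one_lt_card hone ⟨z, hzr⟩
    have hne' : z' ≠ z := fun h0 => hne (Subtype.ext h0)
    have hz'' : aeval z' (minpoly F z) = 0 := (mem_rootSet.mp hz').2
    let j1 : AdjoinRoot (minpoly F z) →ₐ[F] M := AdjoinRoot.liftAlgHom _ (Algebra.ofId F M) z (minpoly.aeval F z)
    let j2 : AdjoinRoot (minpoly F z) →ₐ[F] M := AdjoinRoot.liftAlgHom _ (Algebra.ofId F M) z' hz''
    have e1 : j1 (AdjoinRoot.root _) = z := AdjoinRoot.liftAlgHom_root _ _ _ _
    have e2 : j2 (AdjoinRoot.root _) = z' := AdjoinRoot.liftAlgHom_root _ _ _ _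
    refine core hC F M (AdjoinRoot (minpoly F z)) j1 j2 (AdjoinRoot.root _) (by rw [e1, e2]; exact hne') ?_
    intro N _ _ _ τ τ'
    rw [e1]
    exact h N τ τ'
  · have ht : Transcendental F z := fun ha => hi ha.isIntegral
    have ht' : Transcendental F (z + 1) := by
      intro ha
      apply ht
      have := ha.sub (isAlgebraic_one (R := F) (A := M))
      simpa using this
    have n1 : Function.Injective (aeval z : F[X] →ₐ[F] M) := transcendental_iff_injective.mp ht
    have n2 : Function.Injective (aeval (z + 1) : F[X] →ₐ[F] M) := transcendental_iff_injective.mp ht'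
    let j1 : RatFunc F →ₐ[F] M := RatFunc.liftAlgHom (aeval z) (nonZeroDivisors_le_comap_nonZeroDivisors_of_injective _ n1)
    let j2 : RatFunc F →ₐ[F] M := RatFunc.liftAlgHom (aeval (z + 1)) (nonZeroDivisors_le_comap_nonZeroDivisors_of_injective _ n2)
    have e1 : j1 RatFunc.X = z := by
      rw [← RatFunc.algebraMap_X]
      simp [j1, RatFunc.liftAlgHom_apply]
    have e2 : j2 RatFunc.X = z + 1 := by
      rw [← RatFunc.algebraMap_X]
      simp [j2, RatFunc.liftAlgHom_apply]
    refine core hC F M (RatFunc F) j1 j2 RatFunc.X (by rw [e1, e2]; simp) ?_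
    intro N _ _ _ τ τ'
    rw [e1]
    exact h N τ τ'

end Pool.Agent.Helper45.TGX.FIXG
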